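import Pool.Agent.Lib.H45O.Common

/-!
# MP_0ff721_co: common frequencies of nim-values in octal games

Definitions used in the statement (in `Pool.Agent.Lib.H45O.Game` and `Pool.Agent.Lib.H45O.Period`):

* `H45O.IsGrundy d G`: `G` satisfies the mex recursion of the octal code with digits `d 1, d 2, ...`;
* `H45O.e x = exp (2 π i x)`.
-/

namespace Pool.Agent.Results.MP_0ff721_co.CommonFrequency

open Finset H45O

/-- The number of the `n` with `X < n ≤ X + L` and `G n = u`. -/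
def cnt (G : ℕ → ℕ) (u X L : ℕ) : ℕ := ((Ioc X (X + L)).filter (fun n => G n = u)).card

/-- The exponential sum over the places of the value `w` up to `L`. -/
noncomputable def S (G : ℕ → ℕ) (w L : ℕ) (θ : ℝ) : ℂ :=
  ∑ n ∈ (Ioc 0 L).filter (fun n => G n = w), e (n * θ)

/-- The sum over `n < m ≤ n + H` of `(1 - p) e(m θ)` if `G m = u` and of `(- p) e(m θ)` if
`G m ≠ u`, where `p` is the frequency of the value `u` in the window `(X, X + L]`. -/
noncomputable def D (G : ℕ → ℕ) (u X L n H : ℕ) (θ : ℝ) : ℂ :=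
  ∑ m ∈ Ioc n (n + H), (((if G m = u then 1 else 0) - (cnt G u X L : ℝ) / L : ℝ) : ℂ) * e (m * θ)

theorem pow_exp (θ : ℝ) (n : ℕ) : (((Circle.exp (2 * Real.pi * θ)) ^ n : Circle) : ℂ) = e (n * θ) := by
  rw [Circle.coe_pow, Circle.coe_exp, ← Complex.exp_nat_mul]
  unfold e
  congr 1
  push_cast
  ring

theorem gc_eq (G : ℕ → ℕ) (w L : ℕ) (θ : ℝ) :
    gc (pl G w L) (Circle.exp (2 * Real.pi * θ)) = S G w L θ := by
  unfold gc pl S
  exact Finset.sum_congr rfl fun a _ => pow_exp θ a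

theorem Sx_eq (G : ℕ → ℕ) (u X L n H : ℕ) (θ : ℝ) :
    Sx (cen G X L u) n H (Circle.exp (2 * Real.pi * θ)) = D G u X L n H θ := by
  unfold Sx D cnt cen
  refine Finset.sum_congr rfl fun m _ => ?_
  rw [pow_exp]

theorem exists_angle (z : Circle) : ∃ θ : ℝ, Circle.exp (2 * Real.pi * θ) = z := by
  refine ⟨Complex.arg (z : ℂ) / (2 * Real.pi), ?_⟩
  have h : 2 * Real.pi * (Complex.arg (z : ℂ) / (2 * Real.pi)) = Complex.arg (z : ℂ) := by
    field_simp
  rw [h]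
  exact Circle.exp_arg z

/-- Let `G` be the Sprague–Grundy sequence of an octal code one of whose digits, `d r`, allows to
split a heap, and let `w` be a value with positive upper density: for infinitely many `L` at least
`α L` of the integers `1, ..., L` have the value `w`. Let `q > 0`. There is a set `T` of at most
`64 / (α ^ 4 q ^ 8)` real numbers such that

* `|S G w L θ| ≥ (α q ^ 2 / 2) L` for infinitely many `L`, for every `θ ∈ T`;
* for every `H ≥ 1`, for all large `L`, for all `X` and all `u`, `v` whose nim-sum is `w` and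
  which both occur at least `q L` times in the window `(X, X + L]`, some `θ ∈ T` satisfies
  `∑_{X ≤ n < X + L} |D G z X L n H θ| ^ 2 ≥ (α ^ 4 q ^ 8 / 128) H ^ 2 L` for `z = u` and for
  `z = v`. -/
theorem result (d G : ℕ → ℕ) (hG : IsGrundy d G) (r : ℕ) (hr : 1 ≤ r)
    (hd : (d r).testBit 2 = true) (w : ℕ) (α q : ℝ) (hα : 0 < α) (hq : 0 < q)
    (hw : ∀ L₀ : ℕ, ∃ L : ℕ, L₀ ≤ L ∧ α * L ≤ cnt G w 0 L) :
    ∃ T : Finset ℝ, (T.card : ℝ) ≤ 64 / (α ^ 4 * q ^ 8) ∧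
      (∀ θ ∈ T, ∀ L₀ : ℕ, ∃ L : ℕ, L₀ ≤ L ∧ α * q ^ 2 / 2 * L ≤ ‖S G w L θ‖) ∧
      ∀ H : ℕ, 1 ≤ H → ∃ L₀ : ℕ, ∀ L : ℕ, L₀ ≤ L → ∀ X u v : ℕ, u ^^^ v = w →
        q * L ≤ cnt G u X L → q * L ≤ cnt G v X L → ∃ θ ∈ T,
          α ^ 4 * q ^ 8 / 128 * (H : ℝ) ^ 2 * L ≤
            ∑ n ∈ Ico X (X + L), ‖D G u X L n H θ‖ ^ 2 ∧
          α ^ 4 * q ^ 8 / 128 * (H : ℝ) ^ 2 * L ≤
            ∑ n ∈ Ico X (X + L), ‖D G v X L n H θ‖ ^ 2 := by
  classical
  have hw' : ∃ᶠ l : ℕ in Filter.atTop, α * l ≤ ((pl G w l).card : ℝ) := by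
    rw [Filter.frequently_atTop]
    intro L₀
    obtain ⟨L, hL1, hL2⟩ := hw L₀
    refine ⟨L, hL1, ?_⟩
    have h1 : cnt G w 0 L = (pl G w L).card := by
      unfold cnt pl
      rw [Nat.zero_add]
    rw [← h1]
    exact hL2
  obtain ⟨Θ, h1, h2, h3⟩ := H45O.common d G hG r hr hd w α q hα hq hw'
  choose ang hang using exists_angle
  refine ⟨Θ.image ang, ?_, ?_, ?_⟩
  · refine le_trans ?_ h1
    exact_mod_cast Finset.card_image_le
  · intro θ hθ L₀
    rw [Finset.mem_image] at hθ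
    obtain ⟨z, hz, hzθ⟩ := hθ
    have h4 := h2 z hz
    rw [Filter.frequently_atTop] at h4
    obtain ⟨L, hL1, hL2⟩ := h4 L₀
    refine ⟨L, hL1, ?_⟩
    rw [← hzθ, ← gc_eq, hang]
    exact hL2
  · intro H hH
    have h5 := h3 H hH
    rw [Filter.eventually_atTop] at h5
    obtain ⟨L₀, hL₀⟩ := h5
    refine ⟨L₀, fun L hL X u v huv hu hv => ?_⟩
    obtain ⟨z, hz, hz1, hz2⟩ := hL₀ L hL X u v huv hu hv
    refine ⟨ang z, Finset.mem_image.mpr ⟨z, hz, rfl⟩, ?_, ?_⟩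
    · refine hz1.trans (le_of_eq ?_)
      refine Finset.sum_congr rfl fun n _ => ?_
      rw [← Sx_eq, hang]
    · refine hz2.trans (le_of_eq ?_)
      refine Finset.sum_congr rfl fun n _ => ?_
      rw [← Sx_eq, hang]

end Pool.Agent.Results.MP_0ff721_co.CommonFrequency
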